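import Pool.Agent.H4G.Six.Final6
import Pool.Agent.H4G.Six.D2.Main96

/-!
# MP_4f7c28, Q1 (i), (ii) and (iii), for all sufficiently large numbers of squares

For every sufficiently large `N`: the primitive `N`-square origamis of odd type in `H(4)` form
exactly two `SL₂(ℤ)`-orbits, distinguished by the monodromy group, which is the alternating or the
symmetric group; and the HLK-invariant is a complete invariant of the `SL₂(ℤ)`-orbits of the
primitive `N`-square origamis of hyperelliptic type in `H(4)`, with the values `(4,[1,1,1])`,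
`(2,[3,1,1])`, `(0,[5,1,1])`, `(0,[3,3,1])` if `N` is odd, and `(3,[2,2,0])`, `(1,[4,2,0])`,
`(1,[2,2,2])` if `N` is even.
-/

set_option autoImplicit false

open Pool.Agent.H4G in
theorem Pool.Agent.Results.MP_4f7c28_gt.Complete.result :
    ∃ N0 : ℕ, ∀ N : ℕ, N0 ≤ N →
      ((∀ p : Ori N, p.POdd → p.mono = alternatingGroup (Fin N) ∨ p.mono = ⊤) ∧
        (∃ p : Ori N, p.POdd ∧ p.mono = alternatingGroup (Fin N)) ∧
        (∃ p : Ori N, p.POdd ∧ p.mono = ⊤) ∧
        ∀ p q : Ori N, p.POdd → q.POdd → (p.SameOrbit q ↔ p.mono = q.mono)) ∧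
      ((∀ p : Ori N, p.PH → ∃! v, p.HLK v) ∧
        (∀ v, (∃ p : Ori N, p.PH ∧ p.HLK v) ↔ v ∈ vals N) ∧
        ∀ p q : Ori N, p.PH → q.PH → (p.SameOrbit q ↔ ∃ v, p.HLK v ∧ q.HLK v)) :=
  Six.complete_desc Six.desc_large
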