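import Pool.Agent.H4G.Arith.LineBAll

/-!
# MP_4f7c28, Q1 (ii), for all prime numbers of squares

For every prime `N > 8` the primitive `N`-square origamis of hyperelliptic type in `H(4)` form
exactly four `SL₂(ℤ)`-orbits, with the HLK-invariants `(4,[1,1,1])`, `(2,[3,1,1])`,
`(0,[5,1,1])`, `(0,[3,3,1])`.
-/

set_option autoImplicit false

open Pool.Agent.H4G in
theorem Pool.Agent.Results.MP_4f7c28_gt.PrimesHyp.result :
    ∀ N : ℕ, N.Prime → 8 < N →
      ∃ o : Fin 4 → Ori N, (∀ k, (o k).PH ∧ ∀ v, (o k).HLK v ↔ v = valO k) ∧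
        ∀ p : Ori N, p.PH → ∃! k, p.SameOrbit (o k) :=
  orbits_prime_all
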